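import Mathlib

namespace Pool.Agent.Results.MP_303581_co.Divisible

/-- The 2-density: the maximum of `(e(F) - 1) / (v(F) - 2)` over subgraphs with at least three
vertices. -/
noncomputable def m2 {m : ℕ} (G : SimpleGraph (Fin m)) : ℝ :=
  sSup {x : ℝ | ∃ F : G.Subgraph, 3 ≤ F.verts.ncard ∧
    x = ((F.edgeSet.ncard : ℝ) - 1) / ((F.verts.ncard : ℝ) - 2)}

/-- `M(m, r)`. -/
noncomputable def M (m r : ℕ) : ℝ :=
  sInf {x : ℝ | ∃ G : SimpleGraph (Fin m), G.indepNum < r ∧ x = m2 G}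

def L : List (Fin 12 × Fin 12) :=
  [(2, 5), (0, 9), (0, 5), (9, 11), (1, 4), (3, 9), (1, 6), (7, 8), (6, 7), (4, 10), (1, 9),
    (6, 11), (3, 10), (1, 2), (0, 4), (3, 7), (2, 8), (8, 11), (5, 6), (10, 11)]

def eq (a : ℕ) : Fin a × Fin 12 ≃ Fin (a * 12) := finProdFinEquiv

def G (a : ℕ) : SimpleGraph (Fin (a * 12)) := SimpleGraph.fromRel fun u v =>
  ∃ i x y, (x, y) ∈ L ∧ u = eq a (i, x) ∧ v = eq a (i, y)

def ec (a : Fin 12 → Bool) : ℕ := (L.filter fun p => a p.1 && a p.2).length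
def vc (a : Fin 12 → Bool) : ℕ := ((List.finRange 12).filter a).length

def ok (a : Fin 12 → Bool) : Bool :=
  (decide (vc a < 2) || decide (10 * ec a + 28 ≤ 19 * vc a)) &&
    ((decide (0 < ec a) || decide (vc a ≤ 4)) && (decide (2 ≤ vc a) || decide (ec a = 0)))

lemma all_ok : ∀ a0 a1 a2 a3 a4 a5 a6 a7 a8 a9 a10 a11 : Bool,
    ok ![a0, a1, a2, a3, a4, a5, a6, a7, a8, a9, a10, a11] = true := by decide +kernel

lemma ok_all (a : Fin 12 → Bool) :
    (vc a < 2 ∨ 10 * ec a + 28 ≤ 19 * vc a) ∧ (0 < ec a ∨ vc a ≤ 4) ∧ (2 ≤ vc a ∨ ec a = 0) := by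
  have h := all_ok (a 0) (a 1) (a 2) (a 3) (a 4) (a 5) (a 6) (a 7) (a 8) (a 9) (a 10) (a 11)
  have e : ![a 0, a 1, a 2, a 3, a 4, a 5, a 6, a 7, a 8, a 9, a 10, a 11] = a := by
    funext i; fin_cases i <;> rfl
  rw [e] at h
  simpa only [ok, Bool.and_eq_true, Bool.or_eq_true, decide_eq_true_eq] using h

open Classical in
noncomputable def blk {a : ℕ} (S : Set (Fin (a * 12))) (i : Fin a) : Fin 12 → Bool :=
  fun x => decide (eq a (i, x) ∈ S)

lemma vc_card (b : Fin 12 → Bool) : vc b = ∑ x, if b x = true then 1 else 0 := by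
  unfold vc
  rw [← List.toFinset_card_of_nodup ((List.nodup_finRange 12).filter _), ← Finset.card_filter]
  congr 1
  ext i
  simp

lemma vc_sum {a : ℕ} (S : Set (Fin (a * 12))) : S.ncard = ∑ i, vc (blk S i) := by
  classical
  have h1 : S.ncard = ∑ u, if u ∈ S then 1 else 0 := by
    rw [← Finset.card_filter, ← Set.ncard_coe_finset]
    congr 1
    ext u
    simp
  rw [h1, ← (eq a).sum_comp, Fintype.sum_prod_type]
  refine Finset.sum_congr rfl fun i _ => ?_
  rw [vc_card]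
  refine Finset.sum_congr rfl fun x _ => ?_
  simp [blk]

lemma ec_sum {a : ℕ} (F : (G a).Subgraph) : F.edgeSet.ncard ≤ ∑ i, ec (blk F.verts i) := by
  classical
  let t : Fin a → Finset (Sym2 (Fin (a * 12))) := fun i =>
    ((L.filter fun p => blk F.verts i p.1 && blk F.verts i p.2).map
      fun p => s(eq a (i, p.1), eq a (i, p.2))).toFinset
  have h1 : F.edgeSet ⊆ ((Finset.univ.biUnion t : Finset _) : Set (Sym2 (Fin (a * 12)))) := by
    intro e he
    induction e using Sym2.ind with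
    | _ u v =>
      rw [SimpleGraph.Subgraph.mem_edgeSet] at he
      have ha := F.edge_vert he
      have hb := F.edge_vert he.symm
      have h2 := F.adj_sub he
      simp only [G, SimpleGraph.fromRel_adj] at h2
      simp only [Finset.coe_biUnion, Finset.coe_univ, Set.mem_univ, Set.iUnion_true,
        Set.mem_iUnion, Finset.mem_coe, t, List.mem_toFinset, List.mem_map, List.mem_filter,
        Bool.and_eq_true, blk, decide_eq_true_eq]
      rcases h2.2 with ⟨i, x, y, h3, rfl, rfl⟩ | ⟨i, x, y, h3, rfl, rfl⟩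
      · exact ⟨i, (x, y), ⟨h3, ha, hb⟩, rfl⟩
      · exact ⟨i, (x, y), ⟨h3, hb, ha⟩, Sym2.eq_swap⟩
  refine (Set.ncard_le_ncard h1 (Finset.finite_toSet _)).trans ?_
  rw [Set.ncard_coe_finset]
  refine Finset.card_biUnion_le.trans (Finset.sum_le_sum fun i _ => ?_)
  exact (List.toFinset_card_le _).trans (by simp [ec])

lemma m2_le (a : ℕ) : m2 (G a) ≤ 19 / 10 := by
  apply Real.sSup_le _ (by norm_num)
  rintro x ⟨F, h3, rfl⟩
  have h1 := vc_sum F.verts
  have h2 := ec_sum F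
  have h4 : 10 * F.edgeSet.ncard + 28 ≤ 19 * F.verts.ncard := by
    by_cases hc : ∃ i, 2 ≤ vc (blk F.verts i)
    · obtain ⟨i, hi⟩ := hc
      have h7 : ∑ j, (10 * ec (blk F.verts j) + if j = i then 28 else 0)
          ≤ ∑ j, 19 * vc (blk F.verts j) := Finset.sum_le_sum fun j _ => by
        have := ok_all (blk F.verts j)
        split_ifs with e
        · subst e; omega
        · omega
      rw [Finset.sum_add_distrib, ← Finset.mul_sum, ← Finset.mul_sum, Finset.sum_ite_eq'] at h7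
      simp only [Finset.mem_univ, if_true] at h7
      omega
    · have h7 : ∑ j, ec (blk F.verts j) = 0 := Finset.sum_eq_zero fun j _ =>
        (ok_all (blk F.verts j)).2.2.resolve_left fun h => hc ⟨j, h⟩
      omega
  have h5 : (10 : ℝ) * F.edgeSet.ncard + 28 ≤ 19 * F.verts.ncard := by exact_mod_cast h4
  have h6 : (3 : ℝ) ≤ F.verts.ncard := by exact_mod_cast h3
  rw [div_le_iff₀ (by linarith)]
  linarith

lemma alpha (a : ℕ) : (G a).indepNum < 4 * a + 1 := by
  classical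
  obtain ⟨s, hs⟩ := (G a).exists_isNIndepSet_indepNum
  have h1 := vc_sum (s : Set (Fin (a * 12)))
  rw [Set.ncard_coe_finset, hs.card_eq] at h1
  have h2 : ∑ i, vc (blk (s : Set (Fin (a * 12))) i) ≤ ∑ _i : Fin a, 4 :=
    Finset.sum_le_sum fun i _ => by
      refine (ok_all _).2.1.resolve_left fun h => ?_
      obtain ⟨p, hp⟩ := List.exists_mem_of_length_pos h
      simp only [List.mem_filter, Bool.and_eq_true, blk, decide_eq_true_eq] at hp
      have hne : ∀ q ∈ L, q.1 ≠ q.2 := by decide +kernel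
      have hne' : eq a (i, p.1) ≠ eq a (i, p.2) := fun h =>
        hne p hp.1 (congrArg Prod.snd ((eq a).injective h))
      exact hs.isIndepSet hp.2.1 hp.2.2 hne'
        ((SimpleGraph.fromRel_adj _ _ _).2 ⟨hne', Or.inl ⟨i, p.1, p.2, hp.1, rfl, rfl⟩⟩)
  simp only [Finset.sum_const, Finset.card_univ, Fintype.card_fin, smul_eq_mul] at h2
  omega

theorem result : ∀ r : ℕ, 5 ≤ r → r % 4 = 1 → M (3 * (r - 1)) r ≤ 19 / 10 := by
  have h : ∀ a : ℕ, M (a * 12) (4 * a + 1) ≤ 19 / 10 := fun a => by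
    refine le_trans (csInf_le ?_ ⟨G a, alpha a, rfl⟩) (m2_le a)
    apply Set.Finite.bddBelow
    exact (Set.finite_range fun H : SimpleGraph (Fin (a * 12)) => m2 H).subset
      (by rintro x ⟨H, -, rfl⟩; exact ⟨H, rfl⟩)
  intro r _ hr
  obtain ⟨a, rfl⟩ : ∃ a, r = 4 * a + 1 := ⟨r / 4, by omega⟩
  have e : 3 * (4 * a + 1 - 1) = a * 12 := by omega
  rw [e]
  exact h a

end Pool.Agent.Results.MP_303581_co.Divisible
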